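import Pool.Agent.U975.RM.Tame

/-!
# Inertia groups in quotients, and the restriction on tame ramification
-/

set_option autoImplicit false

namespace Pool.Agent.U975.RM

open Pool.Agent.W258.FM Function
open scoped Pointwise

lemma card_pow (F E : Type*) [CommRing F] [CommRing E] [Finite E] (hF : IsField F) (f : F →+* E) :
    ∃ n : ℕ, Nat.card E = Nat.card F ^ n := by
  let _ : Field F := hF.toField
  let _ : Algebra F E := f.toAlgebra
  exact ⟨_, Module.natCard_eq_pow_finrank (K := F) (V := E)⟩

lemma pow_card_mem {B : Type*} [CommRing B] {P : Ideal B} (hP : P.IsMaximal) [Finite (B ⧸ P)]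
    (b : B) : b ^ Nat.card (B ⧸ P) - b ∈ P := by
  let _ : Field (B ⧸ P) := Ideal.Quotient.field _
  let _ : Fintype (B ⧸ P) := Fintype.ofFinite _
  rw [← Ideal.Quotient.eq, map_pow, Nat.card_eq_fintype_card, FiniteField.pow_card]

section descent

variable {A B C : Type*} [CommRing A] [CommRing B] [CommRing C] [Algebra A B] [Algebra A C]
  [Algebra B C] [IsScalarTower A B C] {H Γ : Type} [Group H] [Group Γ] [Finite Γ]
  [MulSemiringAction H B] [MulSemiringAction Γ C]

/-- the inertia group maps onto the inertia group of the quotient -/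
theorem inertia_surj (res : Γ →* H) (hres : Surjective res)
    (hc : ∀ g b, algebraMap B C (res g • b) = g • algebraMap B C b)
    (hinv : ∀ c : C, (∀ g : Γ, res g = 1 → g • c = c) → ∃ b : B, algebraMap B C b = c)
    (P : Ideal B) (Q : Ideal C) [hQ : Q.IsPrime] [hQP : Q.LiesOver P] (y : H) (hy : Iner P y) :
    ∃ z : Γ, res z = y ∧ Iner Q z := by
  have hcomm : SMulCommClass res.ker B C := by
    constructor
    intro n b c
    have h1 : (n : Γ) • algebraMap B C b = algebraMap B C b := by
      rw [← hc, show res (n : Γ) = 1 from n.2, one_smul]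
    rw [Algebra.smul_def, Algebra.smul_def, smul_mul']
    congr 1
  have hI : Algebra.IsInvariant B C res.ker := by
    constructor
    intro c hcn
    exact hinv c fun g hg => hcn ⟨g, hg⟩
  obtain ⟨g, rfl⟩ := hres y
  -- `g • Q` lies over `P`
  have hmem : ∀ b : B, algebraMap B C b ∈ g • Q ↔ b ∈ P := by
    intro b
    rw [Ideal.mem_pointwise_smul_iff_inv_smul_mem, ← hc, ← Ideal.mem_of_liesOver Q P, map_inv]
    have h1 : (res g)⁻¹ • b - b ∈ P := by
      have hi : Iner P (res g)⁻¹ := by
        have : Finite H := Finite.of_surjective res hres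
        exact hy.inv
      exact hi b
    constructor
    · intro h
      have := Ideal.sub_mem _ h h1
      simpa using this
    · intro h
      have := Ideal.add_mem _ h1 h
      simpa using this
  have hgQ : (g • Q).IsPrime := hQ.smul g
  have hunder : (g • Q).under B = Q.under B := by
    ext b
    rw [Ideal.under_def, Ideal.under_def, Ideal.mem_comap, Ideal.mem_comap, hmem,
      Ideal.mem_of_liesOver Q P]
  obtain ⟨n, hn⟩ := Algebra.IsInvariant.exists_smul_of_under_eq B C res.ker (g • Q) Q hunder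
  -- `n * g` is in the decomposition group
  set h : Γ := (n : Γ) * g with hh
  have hhQ : h • Q = Q := by
    rw [hh, mul_smul]
    exact hn.symm
  have hreh : res h = res g := by
    rw [hh, map_mul, show res (n : Γ) = 1 from n.2, one_mul]
  -- the induced automorphism of the residue ring
  let φ : (C ⧸ Q) ≃ₐ[B ⧸ P] (C ⧸ Q) :=
    { Ideal.quotientEquiv Q Q (MulSemiringAction.toRingEquiv Γ C h) hhQ.symm with
      commutes' := by
        rintro ⟨b⟩
        have h1 : h • algebraMap B C b - algebraMap B C b ∈ Q := by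
          rw [← hc, ← map_sub, ← Ideal.mem_of_liesOver Q P, hreh]
          exact hy b
        exact (Ideal.Quotient.eq).2 h1 }
  obtain ⟨m, hm⟩ := Ideal.Quotient.stabilizerHom_surjective res.ker P Q φ
  refine ⟨((m : res.ker) : Γ)⁻¹ * h, ?_, ?_⟩
  · rw [map_mul, map_inv, show res ((m : res.ker) : Γ) = 1 from (m : res.ker).2, inv_one, one_mul,
      hreh]
  · intro x
    have h1 : Ideal.Quotient.mk Q (((m : res.ker) : Γ) • x) = Ideal.Quotient.mk Q (h • x) := by
      have := DFunLike.congr_fun hm (Ideal.Quotient.mk Q x)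
      exact this
    have h2 : h • x - ((m : res.ker) : Γ) • x ∈ Q := (Ideal.Quotient.eq).1 h1.symm
    have h3 : ((m : res.ker) : Γ) • Q = Q := m.2
    have h4 : (((m : res.ker) : Γ)⁻¹ * h) • x - x =
        ((m : res.ker) : Γ)⁻¹ • (h • x - ((m : res.ker) : Γ) • x) := by
      rw [smul_sub, mul_smul, inv_smul_smul]
    rw [h4]
    have h5 : ((m : res.ker) : Γ)⁻¹ • Q = Q := by
      rw [inv_smul_eq_iff]
      exact h3.symm
    have h6 := Ideal.smul_mem_pointwise_smul (((m : res.ker) : Γ)⁻¹) _ _ h2
    rw [h5] at h6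
    exact h6

/-- **Restriction on tame ramification**: if `res` has the lifting property for `k`, then the primes
`l ≠ p` dividing the order of the inertia group of `P` in `H` satisfy `l ^ k ∣ |B / P| - 1`. -/
theorem tame_restriction [IsDedekindDomain B] [IsDedekindDomain C] [Finite H] [FaithfulSMul H B]
    [FaithfulSMul Γ C] [SMulCommClass Γ A C] [Algebra.IsInvariant A C Γ]
    [Algebra.IsIntegral B C] [FaithfulSMul B C] (res : Γ →* H)
    (hres : Surjective res) (hc : ∀ g b, algebraMap B C (res g • b) = g • algebraMap B C b)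
    (hinv : ∀ c : C, (∀ g : Γ, res g = 1 → g • c = c) → ∃ b : B, algebraMap B C b = c)
    {k : ℕ} (hk : 0 < k) (hlift : Lifts res k)
    (P : Ideal B) (hP : P.IsMaximal) (hP0 : P ≠ ⊥)
    (hfin : ∀ Q : Ideal C, Q.LiesOver P → Q.IsMaximal → Finite (C ⧸ Q)) {p : ℕ}
    (hp : p.Prime) (hpP : (p : B) ∈ P) {l : ℕ} (hl : l.Prime) (hlp : l ≠ p)
    (hdvd : l ∣ Nat.card (inerGroup (G := H) P)) :
    l ^ k ∣ Nat.card (B ⧸ P) - 1 := by
  classical
  obtain ⟨Q, hQmax, hQP⟩ := Ideal.exists_maximal_ideal_liesOver_of_isIntegral (S := C) P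
  have hQ : Q.IsPrime := hQmax.isPrime
  have hQ0 : Q ≠ ⊥ := Ideal.ne_bot_of_liesOver_of_ne_bot hP0 Q
  have hpQ : (p : C) ∈ Q := by
    have := (Ideal.mem_of_liesOver Q P (p : B)).1 hpP
    rwa [map_natCast] at this
  have : Finite (C ⧸ Q) := hfin Q hQP hQmax
  obtain ⟨σ, hσ⟩ := IsArithFrobAt.exists_of_isInvariant A Γ Q
  set q := Nat.card (A ⧸ P.under A) with hq
  have hunder : Q.under A = P.under A := by
    rw [Ideal.over_def Q P, Ideal.under_under]
  have hσ' : ∀ x : C, σ • x - x ^ q ∈ Q := by
    intro x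
    have := hσ x
    rw [hunder] at this
    exact this
  have hfinB : Finite (B ⧸ P) := by
    have hPQ : P = Q.comap (algebraMap B C) := hQP.over
    exact Finite.of_injective (Ideal.quotientMap Q (algebraMap B C) hPQ.le)
      (Ideal.quotientMap_injective' hPQ.ge)
  have hmaxA : (P.under A).IsMaximal := by
    have hPp : P.IsPrime := hP.isPrime
    have hpr : (P.under A).IsPrime := Ideal.IsPrime.under A P
    have hinj : Function.Injective (algebraMap (A ⧸ P.under A) (B ⧸ P)) :=
      Ideal.algebraMap_quotient_injective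
    have hfA : Finite (A ⧸ P.under A) := Finite.of_injective _ hinj
    have hd : IsDomain (A ⧸ P.under A) := Ideal.Quotient.isDomain _
    exact Ideal.Quotient.maximal_of_isField _ (Finite.isField_of_domain _)
  have hfinA : Finite (A ⧸ P.under A) :=
    Finite.of_injective (algebraMap (A ⧸ P.under A) (B ⧸ P)) Ideal.algebraMap_quotient_injective
  have hq0 : q ≠ 0 := Nat.card_pos.ne'
  obtain ⟨f, hf⟩ : ∃ f : ℕ, Nat.card (B ⧸ P) = q ^ f :=
    card_pow _ _ ((Ideal.Quotient.maximal_ideal_iff_isField_quotient _).1 hmaxA)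
      (algebraMap (A ⧸ P.under A) (B ⧸ P))
  obtain ⟨ρ, hρ⟩ := exists_tame_char (G := H) hP hP0 hp hpP hl hlp hdvd
  have hfl : Fact l.Prime := ⟨hl⟩
  obtain ⟨y, hy⟩ := hρ (Multiplicative.ofAdd (1 : ZMod l))
  have hy1 : ρ y ≠ 1 := by
    rw [hy]
    intro h
    have h2 : (1 : ZMod l) = 0 := congrArg Multiplicative.toAdd h
    exact one_ne_zero h2
  obtain ⟨z, hz, hzI⟩ := inertia_surj res hres hc hinv P Q y y.2
  obtain ⟨u, c, hu, huc⟩ := tame_conj hQmax hQ0 hp hpQ hq0 hσ' hzI f
  rw [hf]
  refine key_dvd res hk hlift hl (inerGroup (G := H) P) ρ (r := σ ^ f) (y := z) (u := u)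
    ?_ (by rw [hz]; exact y.2) (Nat.one_le_pow _ _ (Nat.pos_of_ne_zero hq0)) hu ?_ hp hlp huc
  · intro b
    have h1 : res (σ ^ f) • b - b ^ q ^ f ∈ P := by
      rw [Ideal.mem_of_liesOver Q P, map_sub, hc, map_pow]
      exact frob_pow hσ' f _
    have h2 : b ^ q ^ f - b ∈ P := by
      rw [← hf]
      exact pow_card_mem hP b
    have h3 := Ideal.add_mem _ h1 h2
    have e : res (σ ^ f) • b - b = (res (σ ^ f) • b - b ^ q ^ f) + (b ^ q ^ f - b) := by ring
    rw [e]
    exact h3
  · intro h
    apply hy1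
    rw [← h]
    congr 1
    exact Subtype.ext hz.symm

end descent

end Pool.Agent.U975.RM
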