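import Pool.Agent.U975.RM.Descent

/-!
# Realizations of covers
-/

set_option autoImplicit false

namespace Pool.Agent.U975.RM

open Pool.Agent.W258.FM Function

/-- `G` is the Galois group of a finite Galois extension of `K`. -/
def Occurs (K G : Type) [Field K] [Group G] : Prop :=
  ∃ (L : Type) (_ : Field L) (_ : Algebra K L) (_ : FiniteDimensional K L) (_ : IsGalois K L),
    Nonempty (Gal(L/K) ≃* G)

lemma Lifts.congr {X G X' G' : Type} [Group X] [Group G] [Group X'] [Group G'] {π : X →* G}
    {k : ℕ} (h : Lifts π k) (e : X' ≃* X) (ι : G' ≃* G) {π' : X' →* G'}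
    (hc : ∀ x, ι (π' x) = π (e x)) : Lifts π' k := by
  intro hk S l hl ρ
  set S₁ : Subgroup G := S.map ι.toMonoidHom with hS₁
  have hmem : ∀ g : G, g ∈ S₁ → ι.symm g ∈ S := by
    rintro g ⟨s, hs, rfl⟩
    have : ι.symm (ι s) = s := ι.symm_apply_apply s
    exact this.symm ▸ hs
  let back : S₁ →* S := (ι.symm.toMonoidHom.comp S₁.subtype).codRestrict S (fun g => hmem _ g.2)
  obtain ⟨χ, hχ⟩ := h hk S₁ l hl (ρ.comp back)
  have hfor : ∀ s : S.comap π', e s ∈ S₁.comap π := by
    intro s
    refine ⟨π' s, s.2, ?_⟩
    exact hc s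
  let forw : (S.comap π') →* (S₁.comap π) :=
    (e.toMonoidHom.comp (S.comap π').subtype).codRestrict _ hfor
  refine ⟨χ.comp forw, fun s => ?_⟩
  have h1 := hχ (forw s)
  rw [MonoidHom.comp_apply, h1]
  rw [MonoidHom.comp_apply]
  congr 1
  apply Subtype.ext
  have h2 : ι.symm (π (e s)) = π' s := by
    rw [← hc, ι.symm_apply_apply]
  exact h2

/-- A field over which all finite groups occur has extensions with given group inside extensions
for which the restriction map has the lifting property. -/
theorem exists_big {K : Type} [Field K] (hK : ∀ (G : Type) [Group G] [Finite G], Occurs K G)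
    (G : Type) [Group G] [Finite G] (k : ℕ) (hk : 0 < k) :
    ∃ (M : Type) (_ : Field M) (_ : Algebra K M) (_ : FiniteDimensional K M) (_ : IsGalois K M)
      (L : IntermediateField K M) (_ : IsGalois K L), Nonempty (Gal(L/K) ≃* G) ∧
        Lifts (AlgEquiv.restrictNormalHom (F := K) (K₁ := M) L) k := by
  obtain ⟨X, i1, i2, π, hπ, hlift⟩ := exists_cover G k hk
  obtain ⟨M, j1, j2, j3, j4, ⟨e⟩⟩ := hK X
  set N : Subgroup Gal(M/K) := (π.comp e.toMonoidHom).ker with hN
  have hNn : N.Normal := inferInstance
  have hgal : IsGalois K (IntermediateField.fixedField N) :=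
    IsGalois.of_fixedField_normal_subgroup N
  set L := IntermediateField.fixedField N with hL
  set res := AlgEquiv.restrictNormalHom (F := K) (K₁ := M) L with hres
  have hressurj : Surjective res := AlgEquiv.restrictNormalHom_surjective M
  have hker : res.ker = N := by
    rw [hres, IntermediateField.restrictNormalHom_ker, hL, IntermediateField.fixingSubgroup_fixedField]
  have hs : Surjective (π.comp e.toMonoidHom) := hπ.comp e.surjective
  let ι : Gal(L/K) ≃* G :=
    (QuotientGroup.quotientKerEquivOfSurjective res hressurj).symm.trans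
      ((QuotientGroup.quotientMulEquivOfEq hker).trans
        (QuotientGroup.quotientKerEquivOfSurjective _ hs))
  have hι : ∀ x, ι (res x) = π (e x) := by
    intro x
    have h1 : (QuotientGroup.quotientKerEquivOfSurjective res hressurj).symm (res x) =
        (x : Gal(M/K) ⧸ res.ker) := by
      rw [MulEquiv.symm_apply_eq]
      rfl
    show (QuotientGroup.quotientKerEquivOfSurjective _ hs) ((QuotientGroup.quotientMulEquivOfEq hker)
      ((QuotientGroup.quotientKerEquivOfSurjective res hressurj).symm (res x))) = π (e x)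
    rw [h1]
    rfl
  exact ⟨M, j1, j2, j3, j4, L, hgal, ⟨ι⟩, hlift.congr e ι hι⟩

/-- the same with an abstract intermediate field -/
theorem exists_big' {K : Type} [Field K] (hK : ∀ (G : Type) [Group G] [Finite G], Occurs K G)
    (G : Type) [Group G] [Finite G] (k : ℕ) (hk : 0 < k) :
    ∃ (M : Type) (_ : Field M) (_ : Algebra K M) (_ : FiniteDimensional K M) (_ : IsGalois K M)
      (L : Type) (_ : Field L) (_ : Algebra K L) (_ : Algebra L M) (_ : IsScalarTower K L M)
      (_ : IsGalois K L), Nonempty (Gal(L/K) ≃* G) ∧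
        Lifts (AlgEquiv.restrictNormalHom (F := K) (K₁ := M) L) k := by
  obtain ⟨M, i1, i2, i3, i4, L, hL, hι, hlift⟩ := exists_big hK G k hk
  exact ⟨M, i1, i2, i3, i4, L, inferInstance, inferInstance, inferInstance, inferInstance, hL, hι,
    hlift⟩

end Pool.Agent.U975.RM
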