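import Mathlib

/-!
# Finite covers with many cyclic characters

For every finite group `G` and every `k` there is a finite group `X` with a surjection `π` onto `G`
such that the characters of prime order of all subgroups `S` of `G` lift to characters of order
`l ^ k` of the inverse images of the subgroups.  (Subgroups of free groups are free.)
-/

set_option autoImplicit false

namespace Pool.Agent.U975.RM

open Function

lemma free_lift {F A B : Type} [Group F] [IsFreeGroup F] [Group A] [Group B] (r : A →* B)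
    (hr : Surjective r) (f : F →* B) : ∃ g : F →* A, r.comp g = f := by
  refine ⟨IsFreeGroup.lift (fun x => surjInv hr (f (IsFreeGroup.of x))), ?_⟩
  apply IsFreeGroup.ext_hom
  intro x
  simp [surjInv_eq hr]

/-- reduction of `ZMod (l ^ k)` modulo `l` -/
def red (l k : ℕ) (hk : 0 < k) : Multiplicative (ZMod (l ^ k)) →* Multiplicative (ZMod l) :=
  AddMonoidHom.toMultiplicative (ZMod.castHom (dvd_pow_self l hk.ne') (ZMod l)).toAddMonoidHom

lemma red_surj (l k : ℕ) (hk : 0 < k) : Surjective (red l k hk) := by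
  intro x
  obtain ⟨y, hy⟩ := ZMod.castHom_surjective (dvd_pow_self l hk.ne') (Multiplicative.toAdd x)
  exact ⟨Multiplicative.ofAdd y, by
    apply Multiplicative.toAdd.injective
    exact hy⟩

/-- `χ` lifts `ρ` -/
def Lifts {X G : Type} [Group X] [Group G] (π : X →* G) (k : ℕ) : Prop :=
  ∀ (hk : 0 < k) (S : Subgroup G) (l : ℕ), l.Prime → ∀ ρ : S →* Multiplicative (ZMod l),
    ∃ χ : (S.comap π) →* Multiplicative (ZMod (l ^ k)),
      ∀ s : S.comap π, red l k hk (χ s) = ρ ⟨π s, s.2⟩

theorem exists_cover (G : Type) [Group G] [Finite G] (k : ℕ) (hk : 0 < k) :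
    ∃ (X : Type) (_ : Group X) (_ : Finite X) (π : X →* G), Surjective π ∧ Lifts π k := by
  classical
  set ε : FreeGroup G →* G := FreeGroup.lift id with hε
  have hεs : Surjective ε := fun g => ⟨FreeGroup.of g, by simp [hε]⟩
  -- the finite index set
  let J : Type := Σ S : Subgroup G, Σ l : {l : ℕ // l ∈ (Nat.card G).primeFactors},
    (S →* Multiplicative (ZMod l))
  have hfin : Finite J := by
    have h1 : ∀ (S : Subgroup G) (l : {l : ℕ // l ∈ (Nat.card G).primeFactors}),
        Finite (S →* Multiplicative (ZMod l)) := by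
      intro S l
      have : NeZero (l : ℕ) := ⟨(Nat.prime_of_mem_primeFactors l.2).ne_zero⟩
      have : Finite (Multiplicative (ZMod l)) := inferInstanceAs (Finite (ZMod l))
      exact Finite.of_injective (fun f : S →* Multiplicative (ZMod l) => (f : S → _))
        DFunLike.coe_injective
    infer_instance
  -- the lifts on the free group
  have hex : ∀ j : J, ∃ χ : (j.1.comap ε) →* Multiplicative (ZMod ((j.2.1 : ℕ) ^ k)),
      (red j.2.1 k hk).comp χ = j.2.2.comp
        ((ε.comp (j.1.comap ε).subtype).codRestrict j.1 (fun s => s.2)) := by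
    intro j
    exact free_lift _ (red_surj _ k hk) _
  choose χ hχ using hex
  have hKfi : ∀ j : J, ((χ j).ker.map (j.1.comap ε).subtype).FiniteIndex := by
    intro j
    have hl : (j.2.1 : ℕ).Prime := Nat.prime_of_mem_primeFactors j.2.1.2
    have : NeZero ((j.2.1 : ℕ) ^ k) := ⟨(pow_pos hl.pos k).ne'⟩
    have : Finite (Multiplicative (ZMod ((j.2.1 : ℕ) ^ k))) :=
      inferInstanceAs (Finite (ZMod ((j.2.1 : ℕ) ^ k)))
    have h1 : (χ j).ker.FiniteIndex := inferInstance
    have h2 : (j.1.comap ε).FiniteIndex := by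
      constructor
      rw [Subgroup.index_comap]
      intro h0
      exact Subgroup.FiniteIndex.index_ne_zero (H := j.1.subgroupOf ε.range) h0
    constructor
    rw [Subgroup.index_map_subtype]
    exact mul_ne_zero h1.index_ne_zero h2.index_ne_zero
  set W : Subgroup (FreeGroup G) := ε.ker ⊓ ⨅ j : J, (χ j).ker.map (j.1.comap ε).subtype with hW
  have hWfi : W.FiniteIndex := by
    have h1 : (⨅ j : J, (χ j).ker.map (j.1.comap ε).subtype).FiniteIndex :=
      Subgroup.finiteIndex_iInf hKfi
    have h2 : ε.ker.FiniteIndex := inferInstance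
    rw [hW]
    infer_instance
  set V := W.normalCore with hV
  have hVfi : V.FiniteIndex := inferInstance
  have hVW : V ≤ W := Subgroup.normalCore_le W
  have hVε : V ≤ ε.ker := hVW.trans inf_le_left
  refine ⟨FreeGroup G ⧸ V, inferInstance, inferInstance, QuotientGroup.lift V ε hVε, ?_, ?_⟩
  · intro g
    obtain ⟨x, hx⟩ := hεs g
    exact ⟨(x : FreeGroup G ⧸ V), by simpa using hx⟩
  · intro hk' S l hl ρ
    set π : FreeGroup G ⧸ V →* G := QuotientGroup.lift V ε hVε with hπ
    by_cases hlG : l ∣ Nat.card G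
    · -- use the index
      let j : J := ⟨S, ⟨l, Nat.mem_primeFactors.2 ⟨hl, hlG, Nat.card_pos.ne'⟩⟩, ρ⟩
      have hmem : ∀ s : S.comap ε, ((s : FreeGroup G) : FreeGroup G ⧸ V) ∈ S.comap π := by
        intro s
        exact s.2
      let g : (S.comap ε) →* (S.comap π) :=
        ((QuotientGroup.mk' V).comp (S.comap ε).subtype).codRestrict _ hmem
      have hg : Surjective g := by
        rintro ⟨x, hx⟩
        obtain ⟨y, rfl⟩ := QuotientGroup.mk_surjective x
        exact ⟨⟨y, hx⟩, rfl⟩
      have hker : g.ker ≤ (χ j).ker := by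
        intro s hs
        have h1 : (s : FreeGroup G) ∈ V := by
          have h2 : ((s : FreeGroup G) : FreeGroup G ⧸ V) = 1 := congrArg Subtype.val hs
          exact (QuotientGroup.eq_one_iff _).1 h2
        have h3 : (s : FreeGroup G) ∈ (χ j).ker.map (j.1.comap ε).subtype := by
          have h4 := hVW h1
          rw [hW] at h4
          exact (Subgroup.mem_iInf.1 h4.2) j
        obtain ⟨t, ht, hts⟩ := h3
        have : t = s := Subtype.ext hts
        rw [← this]
        exact ht
      refine ⟨g.liftOfSurjective hg ⟨χ j, hker⟩, ?_⟩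
      intro s
      obtain ⟨t, rfl⟩ := hg s
      have h1 : g.liftOfSurjective hg ⟨χ j, hker⟩ (g t) = χ j t :=
        MonoidHom.liftOfRightInverse_comp_apply _ _ _ _ _
      rw [h1]
      have h2 := DFunLike.congr_fun (hχ j) t
      exact h2
    · -- `ρ` is trivial
      refine ⟨1, fun s => ?_⟩
      have h1 : ρ ⟨π s, s.2⟩ = 1 := by
        set x := ρ ⟨π s, s.2⟩ with hx
        have h2 : x ^ Nat.card S = 1 := by
          rw [hx, ← map_pow, pow_card_eq_one', map_one]
        have h3 : x ^ l = 1 := by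
          have : Multiplicative.toAdd (x ^ l) = 0 := by
            rw [toAdd_pow, nsmul_eq_mul, CharP.cast_eq_zero, zero_mul]
          exact this
        have hco : Nat.Coprime (Nat.card S) l := by
          rw [Nat.coprime_comm, Nat.Prime.coprime_iff_not_dvd hl]
          exact fun h => hlG (h.trans (Subgroup.card_subgroup_dvd_card S))
        have h4 := pow_gcd_eq_one.2 ⟨h2, h3⟩
        rwa [hco.gcd_eq_one, pow_one] at h4
      rw [h1, MonoidHom.one_apply, map_one]

/-- the key divisibility -/
theorem key_dvd {X G : Type} [Group X] [Group G] (π : X →* G) {k : ℕ} (hk : 0 < k)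
    (hπ : Lifts π k) {l : ℕ} (hl : l.Prime) (S : Subgroup G) (ρ : S →* Multiplicative (ZMod l))
    {r y u : X} (hr : π r ∈ S) (hy : π y ∈ S) {Q : ℕ} (hQ : 1 ≤ Q)
    (h : r * y * r⁻¹ = y ^ Q * u) (hρ : ρ ⟨π y, hy⟩ ≠ 1) {p c : ℕ} (hp : p.Prime) (hpl : l ≠ p)
    (hup : u ^ p ^ c = 1) : l ^ k ∣ Q - 1 := by
  have hu : π u ∈ S := by
    have h1 : u = (y ^ Q)⁻¹ * (r * y * r⁻¹) := by rw [h]; group
    rw [h1]
    simp only [map_mul, map_inv, map_pow]
    exact S.mul_mem (S.inv_mem (S.pow_mem hy _)) (S.mul_mem (S.mul_mem hr hy) (S.inv_mem hr))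
  obtain ⟨χ, hχ⟩ := hπ hk S l hl ρ
  set r' : S.comap π := ⟨r, hr⟩
  set y' : S.comap π := ⟨y, hy⟩ with hy'
  set u' : S.comap π := ⟨u, hu⟩
  have h1 : r' * y' * r'⁻¹ = y' ^ Q * u' := Subtype.ext h
  have h2 : χ y' = χ y' ^ Q * χ u' := by
    have := congrArg χ h1
    rw [map_mul, map_mul, map_mul, map_inv, map_pow, mul_comm (χ r') (χ y'),
      mul_inv_cancel_right] at this
    exact this
  have h3 : χ u' ^ p ^ c = 1 := by
    rw [← map_pow]
    have : u' ^ p ^ c = 1 := Subtype.ext hup
    rw [this, map_one]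
  -- additive
  obtain ⟨a, ha⟩ : ∃ a : ZMod (l ^ k), a = Multiplicative.toAdd (χ y') := ⟨_, rfl⟩
  obtain ⟨b, hb⟩ : ∃ b : ZMod (l ^ k), b = Multiplicative.toAdd (χ u') := ⟨_, rfl⟩
  have h4 : a = Q * a + b := by
    have := congrArg Multiplicative.toAdd h2
    rw [toAdd_mul, toAdd_pow, nsmul_eq_mul] at this
    rw [ha, hb]
    exact this
  have h5 : ((p ^ c : ℕ) : ZMod (l ^ k)) * b = 0 := by
    have := congrArg Multiplicative.toAdd h3
    rw [toAdd_pow, nsmul_eq_mul] at this
    rw [hb]
    exact this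
  have hlk : NeZero (l ^ k) := ⟨(pow_pos hl.pos k).ne'⟩
  have h6 : IsUnit a := by
    have h7 : ¬ l ∣ a.val := by
      intro h8
      apply hρ
      rw [← hχ y']
      have h9 : ((a.val : ℕ) : ZMod (l ^ k)) = a := ZMod.natCast_zmod_val a
      have : (ZMod.castHom (dvd_pow_self l hk.ne') (ZMod l)) a = 0 := by
        rw [← h9, map_natCast, ZMod.natCast_eq_zero_iff]
        exact h8
      rw [ha] at this
      exact this
    rw [← ZMod.natCast_zmod_val a, ZMod.isUnit_iff_coprime]
    exact (Nat.Coprime.pow_right k ((Nat.Prime.coprime_iff_not_dvd hl).2 h7).symm)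
  have h7 : IsUnit (((p ^ c : ℕ) : ZMod (l ^ k))) := by
    rw [ZMod.isUnit_iff_coprime]
    exact Nat.Coprime.pow _ _ ((Nat.coprime_primes hp hl).2 (Ne.symm hpl))
  have h8 : b = 0 := h7.mul_right_eq_zero.1 h5
  have h9 : ((Q - 1 : ℕ) : ZMod (l ^ k)) * a = 0 := by
    rw [Nat.cast_sub hQ, Nat.cast_one, sub_mul, one_mul]
    rw [h8, add_zero] at h4
    rw [← h4, sub_self]
  have h10 : ((Q - 1 : ℕ) : ZMod (l ^ k)) = 0 := h6.mul_left_eq_zero.1 h9
  exact (ZMod.natCast_eq_zero_iff _ _).1 h10

/-- a cyclic group of order divisible by `l` has a character of order `l` -/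
lemma exists_char (C : Type*) [Group C] [IsCyclic C] [Finite C] {l : ℕ} (hl : l ∣ Nat.card C) :
    ∃ ρ : C →* Multiplicative (ZMod l), Surjective ρ := by
  let e := zmodCyclicMulEquiv (G := C) inferInstance
  let f : Multiplicative (ZMod (Nat.card C)) →* Multiplicative (ZMod l) :=
    AddMonoidHom.toMultiplicative (ZMod.castHom hl (ZMod l)).toAddMonoidHom
  have hf : Surjective f := by
    intro x
    obtain ⟨y, hy⟩ := ZMod.castHom_surjective hl (Multiplicative.toAdd x)
    exact ⟨Multiplicative.ofAdd y, by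
      apply Multiplicative.toAdd.injective
      exact hy⟩
  exact ⟨f.comp e.symm.toMonoidHom, hf.comp e.symm.surjective⟩

/-- involutions die -/
theorem involution_dies {X G : Type} [Group X] [Group G] (π : X →* G) {k : ℕ} (hk : 2 ≤ k)
    (hπ : Lifts π k) {y : X} (hy : y * y = 1) : π y = 1 := by
  by_contra hne
  have hyy : π y * π y = 1 := by rw [← map_mul, hy, map_one]
  set S : Subgroup G := Subgroup.zpowers (π y) with hS
  have hcard : Nat.card S = 2 := by
    rw [hS, Nat.card_zpowers]
    exact orderOf_eq_prime (by rw [pow_two]; exact hyy) hne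
  have hcyc : IsCyclic S := inferInstance
  have hfin : Finite S := Nat.finite_of_card_ne_zero (by rw [hcard]; norm_num)
  obtain ⟨ρ, hρ⟩ := exists_char S (l := 2) (by rw [hcard])
  have hyS : π y ∈ S := Subgroup.mem_zpowers _
  have h := key_dvd π (by omega : 0 < k) hπ Nat.prime_two S ρ (r := 1) (y := y)
    (u := 1) (by rw [map_one]; exact S.one_mem) hyS (Q := 3) (by omega)
    (by
      rw [one_mul, inv_one, mul_one, mul_one, pow_succ, pow_two, hy, one_mul])
    (by
      intro h0
      obtain ⟨⟨z, hz⟩, hz2⟩ := hρ (Multiplicative.ofAdd (1 : ZMod 2))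
      obtain ⟨n, rfl⟩ := Subgroup.mem_zpowers_iff.1 hz
      have h1 : (⟨π y ^ n, hz⟩ : S) = (⟨π y, hyS⟩ : S) ^ n := rfl
      rw [h1, map_zpow, h0, one_zpow] at hz2
      have h2 : (0 : ZMod 2) = 1 := congrArg Multiplicative.toAdd hz2
      exact absurd h2 (by decide)) (p := 3) (c := 0) Nat.prime_three (by norm_num)
    (by simp)
  have h2 : 2 ^ 2 ∣ 2 ^ k := pow_dvd_pow 2 hk
  have h3 := h2.trans h
  norm_num at h3

end Pool.Agent.U975.RM
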