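import Pool.Agent.U975.RM.Cover
import Pool.Agent.W258.FM.TameFin

/-!
# The tame quotient of an inertia group

The inertia group of a maximal ideal `P` of a Dedekind domain with an action of a finite group, its
character into the residue field, the kernel of this character, and the action of Frobenius elements.
Based on `Pool.Agent.W258.FM.TameFin`.
-/

set_option autoImplicit false

namespace Pool.Agent.U975.RM

open Pool.Agent.W258.FM

section general

variable {R : Type*} [CommRing R] [IsDedekindDomain R] {G : Type*} [Group G]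
  [MulSemiringAction G R] [FaithfulSMul G R]

omit [IsDedekindDomain R] [FaithfulSMul G R] in
lemma triv_pow {P : Ideal R} {γ : G} (h1 : Iner P γ) (h2 : ∀ y ∈ P, γ • y - y ∈ P ^ 2) (j : ℕ) :
    ∀ y ∈ P, (γ ^ j) • y - y ∈ P ^ 2 := by
  induction j with
  | zero => intro y _; simp
  | succ j ih =>
    intro y hy
    have e : (γ ^ (j + 1)) • y - y = γ • ((γ ^ j) • y - y) + (γ • y - y) := by
      rw [pow_succ', mul_smul, smul_sub]; ring
    rw [e]
    exact Ideal.add_mem _ (smul_pow_mem h1.mem 2 _ (ih y hy)) (h2 y hy)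

/-- an element of the inertia group acting trivially on `P / P ^ 2` has order a power of `p` -/
lemma wild_order [Finite G] {P : Ideal R} (hP : P.IsMaximal) {p : ℕ} (hp : p.Prime)
    (hpP : (p : R) ∈ P) {γ : G} (h1 : Iner P γ) (h2 : ∀ y ∈ P, γ • y - y ∈ P ^ 2) :
    ∃ c : ℕ, γ ^ p ^ c = 1 := by
  have hn : orderOf γ ≠ 0 := (orderOf_pos γ).ne'
  obtain ⟨c, m, hm, hcm⟩ := Nat.exists_eq_pow_mul_and_not_dvd hn p hp.ne_one
  refine ⟨c, key (N := m) hP ?_ ?_ (h1.pow _) (triv_pow h1 h2 _)⟩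
  · intro hmP
    have hco : Nat.Coprime p m := (Nat.Prime.coprime_iff_not_dvd hp).2 hm
    have hb := Nat.gcd_eq_gcd_ab p m
    rw [hco] at hb
    apply hP.ne_top
    rw [Ideal.eq_top_iff_one]
    have e : (1 : R) = (p : R) * ((p.gcdA m : ℤ) : R) + (m : R) * ((p.gcdB m : ℤ) : R) := by
      have := congrArg (fun z : ℤ => (z : R)) hb
      push_cast at this
      exact this
    rw [e]
    exact Ideal.add_mem _ (Ideal.mul_mem_right _ _ hpP) (Ideal.mul_mem_right _ _ hmP)
  · rw [← pow_mul, ← hcm, pow_orderOf_eq_one]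

/-- the character of the inertia group -/
theorem exists_theta [Finite G] {P : Ideal R} (hP : P.IsMaximal) (h0 : P ≠ ⊥) {p : ℕ}
    (hp : p.Prime) (hpP : (p : R) ∈ P) :
    ∃ θ : inerGroup (G := G) P →* R ⧸ P,
      (∀ τ, θ τ = 1 → ∃ c : ℕ, (τ : G) ^ p ^ c = 1) ∧
      ∀ Q : ℕ, Q ≠ 0 → ∀ σ : G, (∀ x : R, σ • x - x ^ Q ∈ P) → ∀ τ : inerGroup (G := G) P,
        ∃ h : σ * τ * σ⁻¹ ∈ inerGroup (G := G) P, θ ⟨σ * τ * σ⁻¹, h⟩ = θ τ ^ Q := by
  obtain ⟨π, hπ, hπ2, hsp⟩ := exists_unif hP.isPrime h0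
  have hex : ∀ τ : inerGroup (G := G) P, ∃ u : R, (τ : G) • π - u * π ∈ P ^ 2 := fun τ =>
    hsp _ (Iner.mem τ.2 π hπ)
  choose θ hθ using hex
  have huniq : ∀ (g : G) (u v : R), g • π - u * π ∈ P ^ 2 → g • π - v * π ∈ P ^ 2 →
      Ideal.Quotient.mk P u = Ideal.Quotient.mk P v := by
    intro g u v hu hv
    rw [Ideal.Quotient.eq]
    refine cancel_unif hP hπ hπ2 ?_
    have e : (u - v) * π = (g • π - v * π) - (g • π - u * π) := by ring
    rw [e]
    exact Ideal.sub_mem _ hv hu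
  let f : inerGroup (G := G) P →* R ⧸ P :=
    { toFun := fun τ => Ideal.Quotient.mk P (θ τ)
      map_one' := by
        rw [← map_one (Ideal.Quotient.mk P)]
        exact huniq 1 _ _ (by simpa using hθ 1) (by simp)
      map_mul' := by
        intro a b
        rw [← map_mul]
        refine huniq ((a * b : inerGroup (G := G) P) : G) _ _ (hθ _) ?_
        have e : ((a * b : inerGroup (G := G) P) : G) • π - (θ a * θ b) * π =
            ((a : G) • ((b : G) • π) - θ a * ((b : G) • π)) +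
              θ a * ((b : G) • π - θ b * π) := by
          rw [Subgroup.coe_mul, mul_smul]; ring
        rw [e]
        refine Ideal.add_mem _ ?_ (Ideal.mul_mem_left _ _ (hθ b))
        exact mult_all hπ hsp a.2 (hθ a) _ (Iner.mem b.2 π hπ) }
  refine ⟨f, ?_, ?_⟩
  · intro τ hτ
    refine wild_order hP hp hpP τ.2 ?_
    intro y hy
    have h1 : θ τ - 1 ∈ P := by
      have : Ideal.Quotient.mk P (θ τ) = Ideal.Quotient.mk P 1 := by rw [map_one]; exact hτ
      exact (Ideal.Quotient.eq).1 this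
    have h2 := mult_all hπ hsp τ.2 (hθ τ) y hy
    have e : (τ : G) • y - y = ((τ : G) • y - θ τ * y) + (θ τ - 1) * y := by ring
    rw [e]
    refine Ideal.add_mem _ h2 ?_
    rw [pow_two]; exact Ideal.mul_mem_mul h1 hy
  · intro l hl σ hσ τ
    have hσP : ∀ x ∈ P, σ • x ∈ P := by
      intro x hx
      have := Ideal.add_mem _ (hσ x) (Ideal.pow_mem_of_mem P hx l (Nat.pos_of_ne_zero hl))
      simpa using this
    have hσiP : ∀ x ∈ P, σ⁻¹ • x ∈ P := by
      intro x hx
      have h1 := hσ (σ⁻¹ • x)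
      rw [smul_inv_smul] at h1
      have h2 : (σ⁻¹ • x) ^ l ∈ P := by
        have e : (σ⁻¹ • x) ^ l = x - (x - (σ⁻¹ • x) ^ l) := by ring
        rw [e]; exact Ideal.sub_mem _ hx h1
      exact hP.isPrime.mem_of_pow_mem l h2
    have hconj : Iner P (σ * τ * σ⁻¹) := by
      intro x
      have e : (σ * τ * σ⁻¹) • x - x = σ • ((τ : G) • (σ⁻¹ • x) - σ⁻¹ • x) := by
        rw [smul_sub, smul_inv_smul, mul_smul, mul_smul]
      rw [e]
      exact hσP _ (τ.2 _)
    refine ⟨hconj, ?_⟩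
    have hcm : (σ * τ * σ⁻¹) • π - θ τ ^ l * π ∈ P ^ 2 := by
      have h1 := mult_all hπ hsp τ.2 (hθ τ) (σ⁻¹ • π) (hσiP π hπ)
      have h2 := smul_pow_mem hσP 2 _ h1
      rw [smul_sub, smul_mul', smul_inv_smul] at h2
      have e : (σ * τ * σ⁻¹) • π - θ τ ^ l * π =
          (σ • (τ : G) • σ⁻¹ • π - σ • θ τ * π) + (σ • θ τ - θ τ ^ l) * π := by
        rw [mul_smul, mul_smul]; ring
      rw [e]
      refine Ideal.add_mem _ h2 ?_
      rw [pow_two]; exact Ideal.mul_mem_mul (hσ _) hπ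
    have h3 := huniq (σ * τ * σ⁻¹) _ _ (hθ ⟨σ * τ * σ⁻¹, hconj⟩) hcm
    rw [map_pow] at h3
    exact h3

omit [IsDedekindDomain R] [FaithfulSMul G R] in
lemma frob_pow {P : Ideal R} {σ : G} {q : ℕ} (hσ : ∀ x : R, σ • x - x ^ q ∈ P)
    (n : ℕ) : ∀ x : R, (σ ^ n) • x - x ^ q ^ n ∈ P := by
  induction n with
  | zero => intro x; simp
  | succ n ih =>
    intro x
    have h1 := ih (σ • x)
    have h2 : (σ • x) ^ q ^ n - (x ^ q) ^ q ^ n ∈ P := by
      rw [← Ideal.Quotient.eq, map_pow, map_pow, Ideal.Quotient.eq.2 (hσ x)]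
    have e : (σ ^ (n + 1)) • x - x ^ q ^ (n + 1) =
        ((σ ^ n) • (σ • x) - (σ • x) ^ q ^ n) + ((σ • x) ^ q ^ n - (x ^ q) ^ q ^ n) := by
      rw [pow_succ σ, mul_smul, pow_succ' q, pow_mul]; ring
    rw [e]
    exact Ideal.add_mem _ h1 h2

/-- conjugation by powers of a Frobenius element, up to `p`-elements -/
theorem tame_conj [Finite G] {P : Ideal R} (hP : P.IsMaximal) (h0 : P ≠ ⊥) {p : ℕ}
    (hp : p.Prime) (hpP : (p : R) ∈ P) {q : ℕ} (hq : q ≠ 0) {σ : G}
    (hσ : ∀ x : R, σ • x - x ^ q ∈ P) {τ : G} (hτ : Iner P τ) (n : ℕ) :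
    ∃ (u : G) (c : ℕ), σ ^ n * τ * (σ ^ n)⁻¹ = τ ^ q ^ n * u ∧ u ^ p ^ c = 1 := by
  obtain ⟨θ, h1, h2⟩ := exists_theta (G := G) hP h0 hp hpP
  have hqn : q ^ n ≠ 0 := pow_ne_zero n hq
  obtain ⟨h, h3⟩ := h2 (q ^ n) hqn (σ ^ n) (frob_pow hσ n) ⟨τ, hτ⟩
  set t : inerGroup (G := G) P := ⟨τ, hτ⟩ with ht
  set s : inerGroup (G := G) P := ⟨σ ^ n * τ * (σ ^ n)⁻¹, h⟩ with hs
  have h4 : θ ((t ^ q ^ n)⁻¹ * s) = 1 := by
    rw [map_mul]
    have h5 : θ s = θ (t ^ q ^ n) := by rw [h3, map_pow]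
    rw [h5, ← map_mul, inv_mul_cancel, map_one]
  obtain ⟨c, hc⟩ := h1 _ h4
  exact ⟨_, c, by
    have : s = t ^ q ^ n * ((t ^ q ^ n)⁻¹ * s) := by group
    exact congrArg Subtype.val this, hc⟩

/-- the tame quotient is cyclic: if a prime `l ≠ p` divides the order of the inertia group, there is
a surjection of the inertia group onto the group of order `l` -/
theorem exists_tame_char [Finite G] {P : Ideal R} (hP : P.IsMaximal) (h0 : P ≠ ⊥) {p : ℕ}
    (hp : p.Prime) (hpP : (p : R) ∈ P) {l : ℕ} (hl : l.Prime) (hlp : l ≠ p)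
    (hdvd : l ∣ Nat.card (inerGroup (G := G) P)) :
    ∃ ρ : inerGroup (G := G) P →* Multiplicative (ZMod l), Function.Surjective ρ := by
  classical
  obtain ⟨θ, h1, -⟩ := exists_theta (G := G) hP h0 hp hpP
  have : IsDomain (R ⧸ P) := Ideal.Quotient.isDomain P
  set C := θ.toHomUnits.range with hC
  have hfinC : Finite C :=
    Finite.of_surjective θ.toHomUnits.rangeRestrict θ.toHomUnits.rangeRestrict_surjective
  have hcyc : IsCyclic C := isCyclic_subgroup_units C
  have hfp : Fact p.Prime := ⟨hp⟩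
  have hker : IsPGroup p θ.toHomUnits.ker := by
    intro x
    have hx : θ x = 1 := by
      have := x.2
      rw [MonoidHom.mem_ker] at this
      have := congrArg Units.val this
      simpa using this
    obtain ⟨c, hc⟩ := h1 _ hx
    exact ⟨c, Subtype.ext (Subtype.ext hc)⟩
  have hcard : Nat.card (inerGroup (G := G) P) =
      Nat.card C * Nat.card θ.toHomUnits.ker := by
    rw [← Subgroup.index_mul_card θ.toHomUnits.ker, Subgroup.index_ker]
  have hlC : l ∣ Nat.card C := by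
    rw [hcard, hl.dvd_mul] at hdvd
    rcases hdvd with h | h
    · exact h
    · exfalso
      obtain ⟨c, hc⟩ := (IsPGroup.iff_card).1 hker
      rw [hc] at h
      exact hlp ((Nat.prime_dvd_prime_iff_eq hl hp).1 (hl.dvd_of_dvd_pow h))

  obtain ⟨ρ, hρ⟩ := exists_char C hlC
  exact ⟨ρ.comp θ.toHomUnits.rangeRestrict, hρ.comp θ.toHomUnits.rangeRestrict_surjective⟩

end general

end Pool.Agent.U975.RM
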